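import Pool.Agent.Lib.MP_4fbe7c_an.WN.Base

/-!
Project WN (MP_4fbe7c_an), row ALB: the bounds for the letters (helper36).
-/

set_option autoImplicit false

namespace Pool.Agent.Lib.MP_4fbe7c_an.WN.H36

open Pool.Agent.Lib.MP_4fbe7c_an.WN

/-- Weighted Cauchy-Schwarz. -/
theorem cs (S : Finset ℕ) (w x y : ℕ → ℝ) (hw : ∀ k ∈ S, 0 ≤ w k) :
    (∑ k ∈ S, w k * (x k * y k)) ^ 2 ≤ (∑ k ∈ S, w k * x k ^ 2) * ∑ k ∈ S, w k * y k ^ 2 :=
  Finset.sum_sq_le_sum_mul_sum_of_sq_le_mul S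
    (fun k hk => mul_nonneg (hw k hk) (sq_nonneg _))
    (fun k hk => mul_nonneg (hw k hk) (sq_nonneg _))
    (fun k _ => le_of_eq (by ring))

theorem cs1 (S : Finset ℕ) (w x : ℕ → ℝ) (hw : ∀ k ∈ S, 0 ≤ w k) :
    (∑ k ∈ S, w k * x k) ^ 2 ≤ (∑ k ∈ S, w k) * ∑ k ∈ S, w k * x k ^ 2 :=
  Finset.sum_sq_le_sum_mul_sum_of_sq_le_mul S
    (fun k hk => hw k hk)
    (fun k hk => mul_nonneg (hw k hk) (sq_nonneg _))
    (fun k _ => le_of_eq (by ring))

/-- The square of a sum. -/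
theorem pairs (x : ℕ → ℝ) (n : ℕ) (hn : 1 ≤ n) :
    ∑ k ∈ Finset.Ico 2 (n + 1), x k * ∑ l ∈ Finset.Ico (k + 1) (n + 1), x l =
      ((∑ k ∈ Finset.Ico 2 (n + 1), x k) ^ 2 - ∑ k ∈ Finset.Ico 2 (n + 1), x k ^ 2) / 2 := by
  induction n with
  | zero => omega
  | succ n ih =>
    rcases Nat.eq_zero_or_pos n with rfl | h0
    · simp
    · have h2 : ∑ k ∈ Finset.Ico 2 (n + 1 + 1), x k * ∑ l ∈ Finset.Ico (k + 1) (n + 1 + 1), x l =
          ∑ k ∈ Finset.Ico 2 (n + 1), x k * ∑ l ∈ Finset.Ico (k + 1) (n + 1), x l +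
            (∑ k ∈ Finset.Ico 2 (n + 1), x k) * x (n + 1) := by
        rw [Finset.sum_Ico_succ_top (by omega), Finset.Ico_self, Finset.sum_empty, mul_zero,
          add_zero, Finset.sum_mul, ← Finset.sum_add_distrib]
        refine Finset.sum_congr rfl fun k hk => ?_
        obtain ⟨_, h4⟩ := Finset.mem_Ico.mp hk
        rw [Finset.sum_Ico_succ_top (by omega)]
        ring
      have h3 : ∑ k ∈ Finset.Ico 2 (n + 1 + 1), x k =
          ∑ k ∈ Finset.Ico 2 (n + 1), x k + x (n + 1) := Finset.sum_Ico_succ_top (by omega) x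
      have h4 : ∑ k ∈ Finset.Ico 2 (n + 1 + 1), x k ^ 2 =
          ∑ k ∈ Finset.Ico 2 (n + 1), x k ^ 2 + x (n + 1) ^ 2 :=
        Finset.sum_Ico_succ_top (by omega) (fun k => x k ^ 2)
      rw [h2, ih h0, h3, h4]
      ring

theorem alb_st : AlbStatement := by
  intro n s κ r zh z ω hn hs h1 hmono hle hr hz
  have hsum : ∑ k ∈ Finset.Ico 2 (n + 1), al κ k ≤ s := by
    rw [sum_al κ hn, h1, sub_zero]
    exact hle n hn le_rfl
  have hal : ∀ k ∈ Finset.Ico 2 (n + 1), 0 ≤ al κ k := by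
    intro k hk
    obtain ⟨h2, h3⟩ := Finset.mem_Ico.mp hk
    unfold al
    have := hmono (k - 1) (by omega) (by omega)
    rw [Nat.sub_add_cancel (by omega)] at this
    linarith
  have hκ : ∀ k, 1 ≤ k → k ≤ n → 0 ≤ κ k := by
    intro k
    induction k with
    | zero => intro h; omega
    | succ k ih =>
      intro _ hk
      rcases Nat.eq_zero_or_pos k with rfl | h0
      · simpa using h1.ge
      · exact (ih (by omega) (by omega)).trans (hmono k (by omega) (by omega))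
  have hq0 : ∀ k, 0 ≤ qv n r k := fun k => qv_nonneg hr
  have hqv : ∀ k ∈ Finset.Ico 2 (n + 1), qv n r k ≤ qv n r 1 := by
    intro k hk
    obtain ⟨h2, h3⟩ := Finset.mem_Ico.mp hk
    exact qv_anti hr (by omega)
  have hv := hq0 1
  have hbe : ∀ k ∈ Finset.Ico 2 (n + 1), 0 ≤ al κ k / s :=
    fun k hk => div_nonneg (hal k hk) hs.le
  have hbs : ∑ k ∈ Finset.Ico 2 (n + 1), al κ k / s ≤ 1 := by
    rw [← Finset.sum_div, div_le_one hs]
    exact hsum
  set C2 := ∑ k ∈ Finset.Ico 2 (n + 1), al κ k / s * zh k ^ 2 with hC2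
  set N2 := ∑ k ∈ Finset.Ico 2 (n + 1), al κ k / s * qv n r k ^ 2 with hN2
  have hC0 : 0 ≤ C2 := Finset.sum_nonneg fun k hk => mul_nonneg (hbe k hk) (sq_nonneg _)
  have hN0 : 0 ≤ N2 := Finset.sum_nonneg fun k hk => mul_nonneg (hbe k hk) (sq_nonneg _)
  have hNv : N2 ≤ qv n r 1 ^ 2 := by
    calc N2 ≤ ∑ k ∈ Finset.Ico 2 (n + 1), al κ k / s * qv n r 1 ^ 2 :=
          Finset.sum_le_sum fun k hk => mul_le_mul_of_nonneg_left
            (pow_le_pow_left₀ (hq0 k) (hqv k hk) 2) (hbe k hk)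
      _ = (∑ k ∈ Finset.Ico 2 (n + 1), al κ k / s) * qv n r 1 ^ 2 := by
          rw [Finset.sum_mul]
      _ ≤ 1 * qv n r 1 ^ 2 := mul_le_mul_of_nonneg_right hbs (sq_nonneg _)
      _ = qv n r 1 ^ 2 := one_mul _
  -- sums with the weights `al` are `s` times the sums with the weights `al / s`
  have hsc : ∀ g : ℕ → ℝ, ∑ k ∈ Finset.Ico 2 (n + 1), al κ k * g k =
      s * ∑ k ∈ Finset.Ico 2 (n + 1), al κ k / s * g k := by
    intro g
    rw [Finset.mul_sum]
    refine Finset.sum_congr rfl fun k _ => ?_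
    field_simp
  refine ⟨qv n r 1, _, C2, N2, _, _, _, _, rfl, rfl, hC2, hN2, rfl, rfl, rfl, rfl, ?_, hC0, hN0,
    hNv, ?_, ?_, ?_, ?_, ?_⟩
  · calc _ ≤ N2 * C2 := cs _ _ _ _ hbe
      _ ≤ qv n r 1 ^ 2 * C2 := mul_le_mul_of_nonneg_right hNv hC0
  · calc _ ≤ (∑ k ∈ Finset.Ico 2 (n + 1), al κ k) *
          ∑ k ∈ Finset.Ico 2 (n + 1), al κ k * zh k ^ 2 := cs1 _ _ _ hal
      _ = (∑ k ∈ Finset.Ico 2 (n + 1), al κ k) * (s * C2) := by rw [hsc]
      _ ≤ s * (s * C2) := mul_le_mul_of_nonneg_right hsum (mul_nonneg hs.le hC0)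
      _ = s ^ 2 * C2 := by ring
  · exact Finset.sum_nonneg fun k hk => mul_nonneg (hal k hk) (hq0 k)
  · calc _ ≤ ∑ k ∈ Finset.Ico 2 (n + 1), al κ k * qv n r 1 :=
          Finset.sum_le_sum fun k hk => mul_le_mul_of_nonneg_left (hqv k hk) (hal k hk)
      _ = (∑ k ∈ Finset.Ico 2 (n + 1), al κ k) * qv n r 1 := by rw [Finset.sum_mul]
      _ ≤ s * qv n r 1 := mul_le_mul_of_nonneg_right hsum hv
  · have e : ∑ k ∈ Finset.Ico 2 (n + 1), al κ k * ((κ k * qv n z k
            + ∑ l ∈ Finset.Ico (k + 1) (n + 1), al κ l * qv n z l) * qv n z k) =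
        ∑ k ∈ Finset.Ico 2 (n + 1), al κ k * (κ k * qv n z k ^ 2) +
          ∑ k ∈ Finset.Ico 2 (n + 1), (al κ k * qv n z k) *
            ∑ l ∈ Finset.Ico (k + 1) (n + 1), al κ l * qv n z l := by
      rw [← Finset.sum_add_distrib]
      refine Finset.sum_congr rfl fun k _ => ?_
      ring
    rw [e, pairs (fun k => al κ k * qv n z k) n hn]
    have h5 : ∑ k ∈ Finset.Ico 2 (n + 1), (al κ k * qv n z k) ^ 2 / 2 ≤
        ∑ k ∈ Finset.Ico 2 (n + 1), al κ k * (κ k * qv n z k ^ 2) := by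
      refine Finset.sum_le_sum fun k hk => ?_
      obtain ⟨h2, h3⟩ := Finset.mem_Ico.mp hk
      have h6 : al κ k / 2 ≤ κ k := by
        have ha : al κ k = κ k - κ (k - 1) := rfl
        have := hκ k (by omega) (by omega)
        have := hκ (k - 1) (by omega) (by omega)
        linarith
      have h7 : 0 ≤ al κ k * qv n z k ^ 2 := mul_nonneg (hal k hk) (sq_nonneg _)
      nlinarith [mul_le_mul_of_nonneg_right h6 h7]
    rw [← Finset.sum_div] at h5
    have h8 := sq_nonneg (∑ k ∈ Finset.Ico 2 (n + 1), al κ k * qv n z k)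
    linarith
  · set P := ∑ k ∈ Finset.Ico 2 (n + 1), al κ k * |qv n z k| with hP
    have hP0 : 0 ≤ P := Finset.sum_nonneg fun k hk => mul_nonneg (hal k hk) (abs_nonneg _)
    have hy : ∀ k ∈ Finset.Ico 2 (n + 1), |κ k * qv n z k
        + ∑ l ∈ Finset.Ico (k + 1) (n + 1), al κ l * qv n z l| ≤ s * |qv n z k| + P := by
      intro k hk
      obtain ⟨h2, h3⟩ := Finset.mem_Ico.mp hk
      refine (abs_add_le _ _).trans (add_le_add ?_ ?_)
      · rw [abs_mul, abs_of_nonneg (hκ k (by omega) (by omega))]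
        exact mul_le_mul_of_nonneg_right (hle k (by omega) (by omega)) (abs_nonneg _)
      · refine (Finset.abs_sum_le_sum_abs _ _).trans ?_
        have h4 : ∀ l ∈ Finset.Ico (k + 1) (n + 1), |al κ l * qv n z l| = al κ l * |qv n z l| := by
          intro l hl
          obtain ⟨h5, h6⟩ := Finset.mem_Ico.mp hl
          rw [abs_mul, abs_of_nonneg (hal l (Finset.mem_Ico.mpr ⟨by omega, h6⟩))]
        rw [Finset.sum_congr rfl h4]
        exact Finset.sum_le_sum_of_subset_of_nonneg (Finset.Ico_subset_Ico_left (by omega))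
          fun l hl _ => mul_nonneg (hal l hl) (abs_nonneg _)
    have hS : |∑ k ∈ Finset.Ico 2 (n + 1), al κ k * (qv n r k * (κ k * qv n z k
            + ∑ l ∈ Finset.Ico (k + 1) (n + 1), al κ l * qv n z l))| ≤ 2 * s * qv n r 1 * P := by
      refine (Finset.abs_sum_le_sum_abs _ _).trans ?_
      calc _ ≤ ∑ k ∈ Finset.Ico 2 (n + 1), qv n r 1 * (s * (al κ k * |qv n z k|) + P * al κ k) := by
            refine Finset.sum_le_sum fun k hk => ?_
            rw [abs_mul, abs_mul, abs_of_nonneg (hal k hk), abs_of_nonneg (hq0 k)]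
            calc _ ≤ al κ k * (qv n r 1 * (s * |qv n z k| + P)) :=
                  mul_le_mul_of_nonneg_left
                    (mul_le_mul (hqv k hk) (hy k hk) (abs_nonneg _) hv) (hal k hk)
              _ = _ := by ring
        _ = qv n r 1 * (s * P + P * ∑ k ∈ Finset.Ico 2 (n + 1), al κ k) := by
            rw [← Finset.mul_sum, Finset.sum_add_distrib, ← Finset.mul_sum, ← Finset.mul_sum]
        _ ≤ qv n r 1 * (s * P + P * s) := by
            gcongr
        _ = _ := by ring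
    have hPP : P ^ 2 ≤ s ^ 2 * (2 * C2 + 2 * (qv n r 1 ^ 2 * ω ^ 2)) := by
      calc P ^ 2 ≤ (∑ k ∈ Finset.Ico 2 (n + 1), al κ k) *
            ∑ k ∈ Finset.Ico 2 (n + 1), al κ k * |qv n z k| ^ 2 := cs1 _ _ _ hal
        _ = (∑ k ∈ Finset.Ico 2 (n + 1), al κ k) *
            (s * ∑ k ∈ Finset.Ico 2 (n + 1), al κ k / s * |qv n z k| ^ 2) := by rw [hsc]
        _ ≤ s * (s * (2 * C2 + 2 * ω ^ 2 * N2)) := by
            refine mul_le_mul hsum (mul_le_mul_of_nonneg_left ?_ hs.le)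
              (mul_nonneg hs.le (Finset.sum_nonneg fun k hk =>
                mul_nonneg (hbe k hk) (sq_nonneg _))) hs.le
            rw [hC2, hN2, Finset.mul_sum, Finset.mul_sum, ← Finset.sum_add_distrib]
            refine Finset.sum_le_sum fun k hk => ?_
            rw [sq_abs, hz k]
            nlinarith [mul_nonneg (hbe k hk) (sq_nonneg (zh k - qv n r k * ω))]
        _ ≤ s * (s * (2 * C2 + 2 * ω ^ 2 * qv n r 1 ^ 2)) := by gcongr
        _ = _ := by ring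
    calc _ = |∑ k ∈ Finset.Ico 2 (n + 1), al κ k * (qv n r k * (κ k * qv n z k
            + ∑ l ∈ Finset.Ico (k + 1) (n + 1), al κ l * qv n z l))| ^ 2 := (sq_abs _).symm
      _ ≤ (2 * s * qv n r 1 * P) ^ 2 := pow_le_pow_left₀ (abs_nonneg _) hS 2
      _ = 4 * s ^ 2 * qv n r 1 ^ 2 * P ^ 2 := by ring
      _ ≤ 4 * s ^ 2 * qv n r 1 ^ 2 * (s ^ 2 * (2 * C2 + 2 * (qv n r 1 ^ 2 * ω ^ 2))) := by
          gcongr
      _ = _ := by ring

end Pool.Agent.Lib.MP_4fbe7c_an.WN.H36
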